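import Mathlib
import Pool.Agent.Q81.QPreorder

/-!
# MP_57f692_ag : `Pos(K_i)` is finitely generated for all three compact intervals
-/

set_option autoImplicit false

open Polynomial

namespace Pool.Agent.Results.MP_57f692_ag.CompactIntervals

open Pool.Agent.Q81.QPreorder Pool.Agent.Q81.Archimedean

/-- `{x, 2 - x^3}` -/
noncomputable def S1 : Finset ℚ[X] := {X, 2 - X ^ 3}

/-- `{x, x^2 - 2, 3 - x^2}` -/
noncomputable def S2 : Finset ℚ[X] := {X, X ^ 2 - 2, 3 - X ^ 2}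

/-- `{2 - x^4}` -/
noncomputable def S3 : Finset ℚ[X] := {2 - X ^ 4}

lemma mem1 (g : ℚ[X]) : g ∈ S1 ↔ g = X ∨ g = 2 - X ^ 3 := by
  simp [S1]

lemma mem2 (g : ℚ[X]) : g ∈ S2 ↔ g = X ∨ g = X ^ 2 - 2 ∨ g = 3 - X ^ 2 := by
  simp [S2]

lemma mem3 (g : ℚ[X]) : g ∈ S3 ↔ g = 2 - X ^ 4 := by
  simp [S3]

lemma root_pow (n : ℕ) (hn : n ≠ 0) (y : ℝ) (hy : 0 ≤ y) : (y ^ ((1 : ℝ) / n)) ^ n = y := by
  rw [← Real.rpow_natCast, ← Real.rpow_mul hy, one_div_mul_cancel (by exact_mod_cast hn),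
    Real.rpow_one]

lemma cbrt : ((2 : ℝ) ^ ((1 : ℝ) / 3)) ^ 3 = 2 := by
  have := root_pow 3 (by norm_num) 2 (by norm_num)
  exact_mod_cast this

lemma frt : ((2 : ℝ) ^ ((1 : ℝ) / 4)) ^ 4 = 2 := by
  have := root_pow 4 (by norm_num) 2 (by norm_num)
  exact_mod_cast this

lemma K1_eq : KS S1 = Set.Icc (0 : ℝ) ((2 : ℝ) ^ ((1 : ℝ) / 3)) := by
  have hc := cbrt
  have hc0 : (0 : ℝ) ≤ (2 : ℝ) ^ ((1 : ℝ) / 3) := Real.rpow_nonneg (by norm_num) _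
  generalize (2 : ℝ) ^ ((1 : ℝ) / 3) = c at hc hc0 ⊢
  ext t
  constructor
  · intro ht
    have h1 := ht X ((mem1 _).mpr (Or.inl rfl))
    have h2 := ht (2 - X ^ 3) ((mem1 _).mpr (Or.inr rfl))
    simp only [aeval_X, map_sub, map_pow, map_ofNat] at h1 h2
    refine ⟨h1, ?_⟩
    by_contra hlt
    push Not at hlt
    have h3 : c ^ 3 < t ^ 3 := pow_lt_pow_left₀ hlt hc0 (by norm_num)
    linarith
  · rintro ⟨h1, h2⟩ g hg
    rcases (mem1 g).mp hg with rfl | rfl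
    · simpa using h1
    · simp only [aeval_X, map_sub, map_pow, map_ofNat]
      have h3 : t ^ 3 ≤ c ^ 3 := pow_le_pow_left₀ h1 h2 3
      linarith

lemma K2_eq : KS S2 = Set.Icc (Real.sqrt 2) (Real.sqrt 3) := by
  ext t
  constructor
  · intro ht
    have h1 := ht X ((mem2 _).mpr (Or.inl rfl))
    have h2 := ht (X ^ 2 - 2) ((mem2 _).mpr (Or.inr (Or.inl rfl)))
    have h3 := ht (3 - X ^ 2) ((mem2 _).mpr (Or.inr (Or.inr rfl)))
    simp only [aeval_X, map_sub, map_pow, map_ofNat] at h1 h2 h3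
    exact ⟨Real.sqrt_le_iff.mpr ⟨h1, by linarith⟩, Real.le_sqrt_of_sq_le (by linarith)⟩
  · rintro ⟨h1, h2⟩ g hg
    have h0 : 0 ≤ t := (Real.sqrt_nonneg 2).trans h1
    have h3 : 2 ≤ t ^ 2 := (Real.sqrt_le_iff.mp h1).2
    have h4 : t ^ 2 ≤ 3 := by
      have := pow_le_pow_left₀ h0 h2 2
      rwa [Real.sq_sqrt (by norm_num)] at this
    rcases (mem2 g).mp hg with rfl | rfl | rfl
    · simpa using h0
    · simp only [aeval_X, map_sub, map_pow, map_ofNat]; linarith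
    · simp only [aeval_X, map_sub, map_pow, map_ofNat]; linarith

lemma K3_eq : KS S3 = Set.Icc (-(2 : ℝ) ^ ((1 : ℝ) / 4)) ((2 : ℝ) ^ ((1 : ℝ) / 4)) := by
  have hc := frt
  have hc0 : (0 : ℝ) ≤ (2 : ℝ) ^ ((1 : ℝ) / 4) := Real.rpow_nonneg (by norm_num) _
  generalize (2 : ℝ) ^ ((1 : ℝ) / 4) = c at hc hc0 ⊢
  ext t
  rw [Set.mem_Icc, ← abs_le]
  have habs : |t| ^ 4 = t ^ 4 := by
    rw [← abs_pow]
    exact abs_of_nonneg (by positivity)
  constructor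
  · intro ht
    have h2 := ht (2 - X ^ 4) ((mem3 _).mpr rfl)
    simp only [aeval_X, map_sub, map_pow, map_ofNat] at h2
    by_contra hlt
    push Not at hlt
    have h3 : c ^ 4 < |t| ^ 4 := pow_lt_pow_left₀ hlt hc0 (by norm_num)
    linarith
  · intro h1 g hg
    rw [(mem3 g).mp hg]
    simp only [aeval_X, map_sub, map_pow, map_ofNat]
    have h3 : |t| ^ 4 ≤ c ^ 4 := pow_le_pow_left₀ (abs_nonneg t) h1 4
    linarith

lemma irr_neg {n : ℕ} (hn : n ≠ 0) {p : ℕ} (hp : p.Prime) :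
    Irreducible (C (p : ℚ) - X ^ n : ℚ[X]) := by
  rw [← neg_sub]
  exact (Associated.irreducible_iff (Associated.neg_left (Associated.refl _))).mpr
    (irreducible_X_pow_sub hn hp)

lemma two_sub_mem {T : Set ℚ[X]} (hT : IsPreordering T) {a b q : ℚ} (ha : 0 < a) (p : ℚ[X])
    (h : C b - C a * p ∈ T) (hq : b / a ≤ q) : C q - p ∈ T := by
  have h1 := hT.mul _ (hT.rat (1 / a) (by positivity)) _ h
  have h2 := hT.add _ h1 _ (hT.rat (q - b / a) (by linarith))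
  have h3 : algebraMap ℚ ℚ[X] (1 / a) * (C b - C a * p) + algebraMap ℚ ℚ[X] (q - b / a) =
      C q - p := by
    rw [← C_eq_algebraMap, ← C_eq_algebraMap]
    have h4 : (C (1 / a) : ℚ[X]) * C a = 1 := by
      rw [← C_mul, one_div_mul_cancel ha.ne', C_1]
    have h5 : (C (1 / a) : ℚ[X]) * C b = C (b / a) := by
      rw [← C_mul]; congr 1; ring
    rw [C_sub]
    linear_combination h5 - p * h4
  rw [h3] at h2
  exact h2

lemma bd1 : ∃ n : ℕ, (n : ℚ[X]) - X ∈ TS S1 ∧ (n : ℚ[X]) + X ∈ TS S1 := by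
  have hT := TS_preordering S1
  have hX : X ∈ TS S1 := TS_mem S1 ((mem1 _).mpr (Or.inl rfl))
  have h2 : 2 - X ^ 3 ∈ TS S1 := TS_mem S1 ((mem1 _).mpr (Or.inr rfl))
  have h3 : ((2 : ℕ) : ℚ[X]) + X ∈ TS S1 := by
    have := hT.add _ (hT.rat 2 (by norm_num)) _ hX
    rwa [map_ofNat] at this
  refine ⟨2, ?_, h3⟩
  have h4 := hT.add _ h2 _ (hT.mul _ (hT.sq (X - 1)) _ h3)
  have h5 : (2 : ℚ[X]) - X ^ 3 + (X - 1) ^ 2 * (((2 : ℕ) : ℚ[X]) + X) = C 4 - C 3 * X := by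
    rw [map_ofNat, map_ofNat]; push_cast; ring
  rw [h5] at h4
  have h6 := two_sub_mem hT (q := 2) (by norm_num) _ h4 (by norm_num)
  rw [map_ofNat] at h6
  exact_mod_cast h6

lemma bd2 : ∃ n : ℕ, (n : ℚ[X]) - X ∈ TS S2 ∧ (n : ℚ[X]) + X ∈ TS S2 := by
  have hT := TS_preordering S2
  have hX : X ∈ TS S2 := TS_mem S2 ((mem2 _).mpr (Or.inl rfl))
  have h2 : 3 - X ^ 2 ∈ TS S2 := TS_mem S2 ((mem2 _).mpr (Or.inr (Or.inr rfl)))
  have h3 : ((2 : ℕ) : ℚ[X]) + X ∈ TS S2 := by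
    have := hT.add _ (hT.rat 2 (by norm_num)) _ hX
    rwa [map_ofNat] at this
  refine ⟨2, ?_, h3⟩
  have h4 := hT.add _ h2 _ (hT.sq (X - 1))
  have h5 : (3 : ℚ[X]) - X ^ 2 + (X - 1) ^ 2 = C 4 - C 2 * X := by
    rw [map_ofNat, map_ofNat]; ring
  rw [h5] at h4
  have h6 := two_sub_mem hT (q := 2) (by norm_num) _ h4 (by norm_num)
  rw [map_ofNat] at h6
  exact_mod_cast h6

lemma bd3 : ∃ n : ℕ, (n : ℚ[X]) - X ∈ TS S3 ∧ (n : ℚ[X]) + X ∈ TS S3 := by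
  have hT := TS_preordering S3
  have h2 : 2 - X ^ 4 ∈ TS S3 := TS_mem S3 ((mem3 _).mpr rfl)
  have h3 := hT.add _ h2 _ (hT.sq (X ^ 2 - 1))
  have h4 := hT.mul _ (hT.rat 2 (by norm_num)) _ (hT.sq (X - 1))
  have h5 := hT.mul _ (hT.rat 2 (by norm_num)) _ (hT.sq (X + 1))
  rw [map_ofNat] at h4 h5
  refine ⟨2, ?_, ?_⟩
  · have h6 := hT.add _ h3 _ h4
    have h7 : (2 : ℚ[X]) - X ^ 4 + (X ^ 2 - 1) ^ 2 + 2 * (X - 1) ^ 2 = C 5 - C 4 * X := by
      rw [map_ofNat, map_ofNat]; ring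
    rw [h7] at h6
    have h6 := two_sub_mem hT (q := 2) (by norm_num) _ h6 (by norm_num)
    rw [map_ofNat] at h6
    exact_mod_cast h6
  · have h6 := hT.add _ h3 _ h5
    have h7 : (2 : ℚ[X]) - X ^ 4 + (X ^ 2 - 1) ^ 2 + 2 * (X + 1) ^ 2 = C 5 - C 4 * (-X) := by
      rw [map_ofNat, map_ofNat]; ring
    rw [h7] at h6
    have h6 := two_sub_mem hT (q := 2) (by norm_num) _ h6 (by norm_num)
    rw [map_ofNat, sub_neg_eq_add] at h6
    exact_mod_cast h6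

/-- **Main result.** -/
theorem result :
    -- the three sets are the ones of the problem
    KS S1 = Set.Icc (0 : ℝ) ((2 : ℝ) ^ ((1 : ℝ) / 3)) ∧
    KS S2 = Set.Icc (Real.sqrt 2) (Real.sqrt 3) ∧
    KS S3 = Set.Icc (-(2 : ℝ) ^ ((1 : ℝ) / 4)) ((2 : ℝ) ^ ((1 : ℝ) / 4)) ∧
    -- `Pos(K_i) = T_{S_i}`, a finitely generated preordering
    Pos (Set.Icc (0 : ℝ) ((2 : ℝ) ^ ((1 : ℝ) / 3))) = TS {X, 2 - X ^ 3} ∧
    Pos (Set.Icc (Real.sqrt 2) (Real.sqrt 3)) = TS {X, X ^ 2 - 2, 3 - X ^ 2} ∧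
    Pos (Set.Icc (-(2 : ℝ) ^ ((1 : ℝ) / 4)) ((2 : ℝ) ^ ((1 : ℝ) / 4))) = TS {2 - X ^ 4} ∧
    -- in particular
    (X - 1 : ℚ[X]) ∈ TS {X, X ^ 2 - 2, 3 - X ^ 2} := by
  have hP1 : Pos (Set.Icc (0 : ℝ) ((2 : ℝ) ^ ((1 : ℝ) / 3))) = TS S1 := by
    refine pos_eq S1 (by positivity) K1_eq bd1 X (2 - X ^ 3) ((mem1 _).mpr (Or.inl rfl))
      ((mem1 _).mpr (Or.inr rfl)) irreducible_X ?_ ?_ ?_
    · have := irr_neg (n := 3) (by norm_num) Nat.prime_two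
      rw [Nat.cast_ofNat, map_ofNat] at this
      exact this
    · simp
    · simp only [aeval_X, map_sub, map_pow, map_ofNat]
      rw [cbrt]; norm_num
  have hP2 : Pos (Set.Icc (Real.sqrt 2) (Real.sqrt 3)) = TS S2 := by
    refine pos_eq S2 (Real.sqrt_lt_sqrt (by norm_num) (by norm_num)) K2_eq bd2
      (X ^ 2 - 2) (3 - X ^ 2) ((mem2 _).mpr (Or.inr (Or.inl rfl)))
      ((mem2 _).mpr (Or.inr (Or.inr rfl))) ?_ ?_ ?_ ?_
    · have := irreducible_X_pow_sub (n := 2) (by norm_num) Nat.prime_two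
      rw [Nat.cast_ofNat, map_ofNat] at this
      exact this
    · have := irr_neg (n := 2) (by norm_num) Nat.prime_three
      rw [Nat.cast_ofNat, map_ofNat] at this
      exact this
    · simp only [aeval_X, map_sub, map_pow, map_ofNat]
      rw [Real.sq_sqrt (by norm_num)]; norm_num
    · simp only [aeval_X, map_sub, map_pow, map_ofNat]
      rw [Real.sq_sqrt (by norm_num)]; norm_num
  have hP3 : Pos (Set.Icc (-(2 : ℝ) ^ ((1 : ℝ) / 4)) ((2 : ℝ) ^ ((1 : ℝ) / 4))) = TS S3 := by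
    have hirr : Irreducible (2 - X ^ 4 : ℚ[X]) := by
      have := irr_neg (n := 4) (by norm_num) Nat.prime_two
      rw [Nat.cast_ofNat, map_ofNat] at this
      exact this
    have hpos : (0 : ℝ) < (2 : ℝ) ^ ((1 : ℝ) / 4) := by positivity
    refine pos_eq S3 (by linarith) K3_eq bd3 (2 - X ^ 4) (2 - X ^ 4) ((mem3 _).mpr rfl)
      ((mem3 _).mpr rfl) hirr hirr ?_ ?_
    · simp only [aeval_X, map_sub, map_pow, map_ofNat]
      have : (-(2 : ℝ) ^ ((1 : ℝ) / 4)) ^ 4 = ((2 : ℝ) ^ ((1 : ℝ) / 4)) ^ 4 := by ring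
      rw [this, frt]; norm_num
    · simp only [aeval_X, map_sub, map_pow, map_ofNat]
      rw [frt]; norm_num
  refine ⟨K1_eq, K2_eq, K3_eq, hP1, hP2, hP3, ?_⟩
  change (X - 1 : ℚ[X]) ∈ TS S2
  rw [← hP2]
  intro t ht
  simp only [aeval_X, map_sub, map_one]
  have h1 : (1 : ℝ) ≤ Real.sqrt 2 := Real.one_le_sqrt.mpr (by norm_num)
  linarith [ht.1]

end Pool.Agent.Results.MP_57f692_ag.CompactIntervals
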